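import Pool.Agent.H17.UN.Tow

/-!
# The cocycle of a section (COC)
-/

set_option autoImplicit false

open Polynomial
open Pool.Agent.H17.UN

namespace Pool.Agent.H14.UN

section

variable {K L : Type} [Field K] [Field L] [Algebra K L] {F Kb Ω : IntermediateField K L} {m : ℕ}
  {A : Fin m → Subalgebra Kb (Fb F Kb)}

theorem ord_one (v : PrimeDivisor A) : v.ord 1 = 0 := by
  have h1 := v.ord_mul 1 1 one_ne_zero one_ne_zero
  rw [mul_one] at h1
  omega

theorem ord_inv (v : PrimeDivisor A) {x : Fb F Kb} (hx : x ≠ 0) : v.ord x⁻¹ = -v.ord x := by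
  have h1 := v.ord_mul x x⁻¹ hx (inv_ne_zero hx)
  rw [mul_inv_cancel₀ hx, ord_one] at h1
  omega

theorem ord_const (v : PrimeDivisor A) {c : Kb} (hc : c ≠ 0) :
    v.ord (algebraMap Kb (Fb F Kb) c) = 0 := by
  obtain ⟨i, hi, -⟩ := v.centre
  have h1 := hi _ ((A i).algebraMap_mem c)
  have h2 := hi _ ((A i).algebraMap_mem c⁻¹)
  have hc' : algebraMap Kb (Fb F Kb) c ≠ 0 := by
    rw [Ne, map_eq_zero]
    exact hc
  rw [map_inv₀, ord_inv v hc'] at h2
  omega

open Classical in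
theorem dn_mul {r : ℕ} (D : Fin r → PrimeDivisor A) (f f' : (Fb F Kb)ˣ) (n n' : Fin r → ℤ)
    (v : PrimeDivisor A) : dn D (f * f') (n + n') v = dn D f n v + dn D f' n' v := by
  unfold dn
  rw [Units.val_mul, v.ord_mul _ _ f.ne_zero f'.ne_zero]
  have h1 : (∑ j, if v = D j then (n + n') j else 0) =
      (∑ j, if v = D j then n j else 0) + ∑ j, if v = D j then n' j else 0 := by
    rw [← Finset.sum_add_distrib]
    refine Finset.sum_congr rfl fun j _ => ?_
    split_ifs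
    · rfl
    · rfl
  rw [h1]
  ring

open Classical in
theorem dn_inv {r : ℕ} (D : Fin r → PrimeDivisor A) (f : (Fb F Kb)ˣ) (n : Fin r → ℤ)
    (v : PrimeDivisor A) : dn D f⁻¹ (-n) v = -dn D f n v := by
  unfold dn
  rw [Units.val_inv_eq_inv_val, ord_inv v f.ne_zero]
  have h1 : (∑ j, if v = D j then (-n) j else 0) = -∑ j, if v = D j then n j else 0 := by
    rw [← Finset.sum_neg_distrib]
    refine Finset.sum_congr rfl fun j _ => ?_
    split_ifs
    · rfl
    · rfl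
  rw [h1]
  ring

theorem mon_mul {r : ℕ} (t : Fin r → Lˣ) (f f' : (Fb F Kb)ˣ) (n n' : Fin r → ℤ) :
    mon t (f * f') (n + n') = mon t f n * mon t f' n' := by
  unfold mon
  have h1 : ∏ j, t j ^ (n + n') j = (∏ j, t j ^ n j) * ∏ j, t j ^ n' j := by
    rw [← Finset.prod_mul_distrib]
    refine Finset.prod_congr rfl fun j _ => ?_
    rw [Pi.add_apply, zpow_add]
  rw [h1, map_mul]
  exact mul_mul_mul_comm _ _ _ _

end

theorem pf_COC (hIMG : T_IMG) (hVAL : T_VAL) (_hMNI : T_MNI) (hSGM : T_SGM) : T_COC := by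
  classical
  intro K L _ _ _ F Kb Ω m A i₀ φ r t D D1 K1 hB hSys hD1 hunit hex hK1
  have hI := hIMG K L F Kb Ω m A i₀ φ hB
  obtain ⟨hV1, hV2, hV3, hV4, hV5⟩ := hVAL K L F Kb Ω m A i₀ φ hB
  -- uniqueness
  have hU : ∀ (f f' : (Fb F Kb)ˣ) (n n' : Fin r → ℤ), (∀ v, dn D f n v = dn D f' n' v) →
      Val φ (f : Fb F Kb) 1 → Val φ (f' : Fb F Kb) 1 → f = f' ∧ n = n' := by
    intro f f' n n' h1 h2 h3
    obtain ⟨h4, c, hc⟩ := hSys.ker (f * f'⁻¹) (n + -n') (fun v => by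
      rw [dn_mul, dn_inv, h1 v]
      ring)
    have h5 : n = n' := by
      rw [← sub_eq_add_neg] at h4
      exact sub_eq_zero.mp h4
    have h6 : Val φ ((f : Fb F Kb) * (f' : Fb F Kb)⁻¹) (1 * 1⁻¹) :=
      hV2 _ _ _ _ h2 (hV3 _ _ one_ne_zero h3)
    have h7 : ((f * f'⁻¹ : (Fb F Kb)ˣ) : Fb F Kb) = (f : Fb F Kb) * (f' : Fb F Kb)⁻¹ := by
      rw [Units.val_mul, Units.val_inv_eq_inv_val]
    rw [← h7, hc, inv_one, mul_one] at h6
    have h8 : c = 1 := hV1 _ _ _ (hV4 c) h6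
    rw [h8, map_one] at hc
    have h9 : f * f'⁻¹ = 1 := Units.ext hc
    exact ⟨mul_inv_eq_one.mp h9, h5⟩
  -- existence
  have hE : ∀ σ : L ≃ₐ[Ω] L, ∃ (v1 : PrimeDivisor A) (f : (Fb F Kb)ˣ) (n : Fin r → ℤ),
      Img σ D1 v1 ∧ Val φ (f : Fb F Kb) 1 ∧ ∀ v, dl v1 v - dl D1 v = dn D f n v := by
    intro σ
    obtain ⟨v1, hv1⟩ := (hI σ D1).1
    obtain ⟨f, n, hfn⟩ := hex σ v1 hv1
    have hv1n : ¬ On φ v1 := fun h =>
      hD1 ((hI σ⁻¹ v1).2.2.2.2.2.1 D1 ((hI σ D1).2.2.2.2.1 v1 hv1) h)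
    obtain ⟨c0, hc0, hval⟩ := hunit f (fun v hv => by
      have h1 := hfn v
      have h2 : v ≠ v1 := fun h => hv1n (h ▸ hv)
      have h3 : v ≠ D1 := fun h => hD1 (h ▸ hv)
      have h4 : (∑ j, if v = D j then n j else 0) = 0 := by
        refine Finset.sum_eq_zero fun j _ => ?_
        rw [if_neg]
        intro h5
        rw [h5] at hv
        exact hSys.off j hv
      unfold dl dn at h1
      rw [if_neg h2, if_neg h3, h4] at h1
      omega)
    have hcu : algebraMap Kb (Fb F Kb) c0⁻¹ ≠ 0 := by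
      rw [Ne, map_eq_zero]
      exact inv_ne_zero hc0
    refine ⟨v1, f * Units.mk0 _ hcu, n, hv1, ?_, ?_⟩
    · have h1 := hV2 _ _ _ _ hval (hV4 c0⁻¹)
      rw [mul_inv_cancel₀ hc0] at h1
      exact h1
    · intro v
      rw [hfn v]
      unfold dn
      rw [Units.val_mul, v.ord_mul _ _ f.ne_zero (Units.ne_zero _), Units.val_mk0,
        ord_const v (inv_ne_zero hc0), add_zero]
  choose v1 f n hv1 hval hdiv using hE
  have himg : ∀ (σ : L ≃ₐ[Ω] L) (v' : PrimeDivisor A), Img σ D1 v' → v' = v1 σ :=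
    fun σ v' h => (hI σ D1).2.2.1 v' (v1 σ) h (hv1 σ)
  refine ⟨fun σ => mon t (f σ) (n σ), ?_, ?_, ?_⟩
  · intro σ τ
    obtain ⟨f', n', h1, h2, h3⟩ := hSGM K L F Kb Ω m A i₀ φ r t D hB hSys σ (f τ) (n τ)
    have h4 : Val φ (f' : Fb F Kb) 1 := h3 1 1 (by simp) (hval τ)
    have h5 : Val φ ((f σ * f' : (Fb F Kb)ˣ) : Fb F Kb) 1 := by
      have h6 := hV2 _ _ _ _ (hval σ) h4
      rw [mul_one] at h6
      exact h6
    have h6 : ∀ v', dn D (f (σ * τ)) (n (σ * τ)) v' = dn D (f σ * f') (n σ + n') v' := by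
      intro v'
      obtain ⟨v, hv⟩ := (hI σ v').2.1
      rw [dn_mul, ← hdiv, ← hdiv, ← h2 v v' hv, ← hdiv]
      have h7 : dl D1 v = dl (v1 σ) v' := by
        unfold dl
        have h8 : v = D1 ↔ v' = v1 σ := by
          constructor
          · intro h
            rw [h] at hv
            exact himg σ v' hv
          · intro h
            refine (hI σ v').2.2.2.1 v D1 hv ?_
            rw [h]
            exact hv1 σ
        by_cases h9 : v = D1
        · rw [if_pos h9, if_pos (h8.1 h9)]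
        · rw [if_neg h9, if_neg (fun h => h9 (h8.2 h))]
      have h8 : dl (v1 τ) v = dl (v1 (σ * τ)) v' := by
        unfold dl
        have h8 : v = v1 τ ↔ v' = v1 (σ * τ) := by
          constructor
          · intro h
            rw [h] at hv
            exact himg (σ * τ) v' ((hI τ D1).2.2.2.2.2.2 σ (v1 τ) v' (hv1 τ) hv)
          · intro h
            obtain ⟨w, hw⟩ := (hI σ (v1 τ)).1
            have h9 : w = v' :=
              (himg (σ * τ) w ((hI τ D1).2.2.2.2.2.2 σ (v1 τ) w (hv1 τ) hw)).trans h.symm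
            rw [h9] at hw
            exact (hI σ v').2.2.2.1 v (v1 τ) hv hw
        by_cases h9 : v = v1 τ
        · rw [if_pos h9, if_pos (h8.1 h9)]
        · rw [if_neg h9, if_neg (fun h => h9 (h8.2 h))]
      rw [h7, h8]
      ring
    obtain ⟨h7, h8⟩ := hU _ _ _ _ h6 (hval (σ * τ)) h5
    show mon t (f (σ * τ)) (n (σ * τ)) = mon t (f σ) (n σ) * Units.map (σ : L →* L)
      (mon t (f τ) (n τ))
    rw [h1, h7, h8, mon_mul]
  · intro σ τ hστ
    have h1 : ∀ a ∈ K1, (τ⁻¹ * σ : L ≃ₐ[Ω] L) a = a := by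
      intro a ha
      rw [AlgEquiv.mul_apply, hστ a ha]
      exact τ.symm_apply_apply a
    have h2 := (hI (τ⁻¹ * σ) D1).2.2.2.2.2.2 τ D1 (v1 τ) (hK1 _ h1) (hv1 τ)
    rw [mul_inv_cancel_left] at h2
    have h3 : v1 τ = v1 σ := himg σ _ h2
    obtain ⟨h4, h5⟩ := hU (f σ) (f τ) (n σ) (n τ) (fun v => by
      rw [← hdiv, ← hdiv, h3]) (hval σ) (hval τ)
    show mon t (f σ) (n σ) = mon t (f τ) (n τ)
    rw [h4, h5]
  · intro σ
    refine ⟨f σ, n σ, rfl, hval σ, fun v v' h => ?_⟩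
    rw [himg σ v' h]
    exact hdiv σ v

end Pool.Agent.H14.UN
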