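import Pool.Agent.H17.UN.Tow

/-!
# Every element is defined at a finite level (FIL)
-/

set_option autoImplicit false

open Polynomial
open Pool.Agent.H17.UN

namespace Pool.Agent.H14.UN

/-- a map which fixes the generators fixes the field -/
theorem fix_adjoin {K L : Type} [Field K] [Field L] [Algebra K L] (τ : L →ₐ[K] L) (S : Set L)
    (h : ∀ a ∈ S, τ a = a) : ∀ x ∈ IntermediateField.adjoin K S, τ x = x := by
  intro x hx
  induction hx using IntermediateField.adjoin_induction with
  | mem a ha => exact h a ha
  | algebraMap c => exact τ.commutes c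
  | add a b _ _ ha hb => rw [map_add, ha, hb]
  | inv a _ ha => rw [map_inv₀, ha]
  | mul a b _ _ ha hb => rw [map_mul, ha, hb]

/-- a map which preserves the generators preserves the field -/
theorem maps_adjoin {K L : Type} [Field K] [Field L] [Algebra K L] (τ : L →ₐ[K] L) (S : Set L)
    (h : ∀ a ∈ S, τ a ∈ S) :
    ∀ x ∈ IntermediateField.adjoin K S, τ x ∈ IntermediateField.adjoin K S := by
  intro x hx
  induction hx using IntermediateField.adjoin_induction with
  | mem a ha => exact IntermediateField.subset_adjoin _ _ (h a ha)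
  | algebraMap c =>
    rw [τ.commutes]
    exact (IntermediateField.adjoin K S).algebraMap_mem c
  | add a b _ _ ha hb =>
    rw [map_add]
    exact add_mem ha hb
  | inv a _ ha =>
    rw [map_inv₀]
    exact inv_mem ha
  | mul a b _ _ ha hb =>
    rw [map_mul]
    exact mul_mem ha hb

/-- an element algebraic over `K` lies in an algebraically closed intermediate field -/
theorem mem_of_algebraic {K L : Type} [Field K] [Field L] [Algebra K L]
    (Kb : IntermediateField K L) (hc : IsAlgClosed Kb) {b : L} (hb : IsAlgebraic K b) :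
    b ∈ Kb := by
  have h1 : IsIntegral Kb b := hb.isIntegral.tower_top
  have h2 := IsAlgClosed.degree_eq_one_of_irreducible Kb (minpoly.irreducible h1)
  obtain ⟨c, hc⟩ := minpoly.mem_range_of_degree_eq_one Kb b h2
  rw [← hc]
  exact c.2

theorem pf_FIL : T_FIL := by
  classical
  intro K L _ _ _ _ Kb Ω hG x
  have hx : x ∈ IntermediateField.adjoin K ((Ω : Set L) ∪ (Kb : Set L)) := by
    rw [IntermediateField.adjoin_union, IntermediateField.adjoin_self,
      IntermediateField.adjoin_self, hG.sup]
    exact IntermediateField.mem_top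
  obtain ⟨T, hT, hxT⟩ := IntermediateField.exists_finset_of_mem_adjoin hx
  set S : Set L := ⋃ a ∈ T.filter (fun a => a ∈ Kb), (minpoly K a).rootSet L with hS
  have hSf : S.Finite := by
    rw [hS]
    exact Set.Finite.biUnion (Finset.finite_toSet _) fun a _ => rootSet_finite _ _
  have hSfin : Finite S := hSf
  have hSalg : ∀ b ∈ S, IsAlgebraic K b := by
    intro b hb
    rw [hS] at hb
    simp only [Set.mem_iUnion] at hb
    obtain ⟨a, ha, hb⟩ := hb
    rw [mem_rootSet] at hb
    exact ⟨minpoly K a, hb.1, hb.2⟩
  refine ⟨IntermediateField.adjoin K S, ?_, ?_, ?_, ?_⟩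
  · rw [IntermediateField.adjoin_le_iff]
    intro b hb
    exact mem_of_algebraic Kb hG.cls (hSalg b hb)
  · exact IntermediateField.finiteDimensional_adjoin fun b hb => (hSalg b hb).isIntegral
  · intro σ
    have h1 := maps_adjoin ((σ : L →ₐ[Ω] L).restrictScalars K) S (by
      intro b hb
      rw [hS] at hb ⊢
      simp only [Set.mem_iUnion] at hb ⊢
      obtain ⟨a, ha, hb⟩ := hb
      refine ⟨a, ha, ?_⟩
      rw [mem_rootSet] at hb ⊢
      refine ⟨hb.1, ?_⟩
      rw [aeval_algHom_apply, hb.2, map_zero])
    exact h1
  · intro σ hσ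
    refine fix_adjoin ((σ : L →ₐ[Ω] L).restrictScalars K) (T : Set L) ?_ x hxT
    intro a ha
    rcases hT ha with h | h
    · exact σ.commutes ⟨a, h⟩
    · refine hσ a (IntermediateField.subset_adjoin _ _ ?_)
      rw [hS]
      simp only [Set.mem_iUnion]
      have hai : IsIntegral K a := (hG.alg a h).isIntegral
      refine ⟨a, Finset.mem_filter.mpr ⟨ha, h⟩, ?_⟩
      rw [mem_rootSet]
      exact ⟨minpoly.ne_zero hai, minpoly.aeval K a⟩

end Pool.Agent.H14.UN
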