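import Pool.Agent.H17.UN.Tow

/-!
# The point of the universal torsor (PNT)
-/

set_option autoImplicit false

open Polynomial
open Pool.Agent.H17.UN

namespace Pool.Agent.H14.UN

section

variable {K L : Type} [Field K] [Field L] [Algebra K L] {Kb Ω : IntermediateField K L}

/-- the elements with equivariant values -/
def eqvS (Ω : IntermediateField K L) (S : Subalgebra Kb L) (ψ : S →ₐ[Kb] Kb) :
    Subalgebra K L where
  carrier := {x | ∃ hx : x ∈ S, ∀ σ : L ≃ₐ[Ω] L, ∃ hσ : σ x ∈ S,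
    ((ψ ⟨σ x, hσ⟩ : Kb) : L) = σ ((ψ ⟨x, hx⟩ : Kb) : L)}
  mul_mem' := by
    rintro x y ⟨hx, hx'⟩ ⟨hy, hy'⟩
    refine ⟨S.mul_mem hx hy, fun σ => ?_⟩
    obtain ⟨h1, h2⟩ := hx' σ
    obtain ⟨h3, h4⟩ := hy' σ
    have h5 : σ (x * y) ∈ S := by
      rw [map_mul]
      exact S.mul_mem h1 h3
    refine ⟨h5, ?_⟩
    have e1 : (⟨σ (x * y), h5⟩ : S) = ⟨σ x, h1⟩ * ⟨σ y, h3⟩ := Subtype.ext (map_mul σ x y)
    have e2 : (⟨x * y, S.mul_mem hx hy⟩ : S) = ⟨x, hx⟩ * ⟨y, hy⟩ := rfl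
    rw [e1, e2, map_mul, map_mul]
    push_cast
    rw [h2, h4, map_mul]
  add_mem' := by
    rintro x y ⟨hx, hx'⟩ ⟨hy, hy'⟩
    refine ⟨S.add_mem hx hy, fun σ => ?_⟩
    obtain ⟨h1, h2⟩ := hx' σ
    obtain ⟨h3, h4⟩ := hy' σ
    have h5 : σ (x + y) ∈ S := by
      rw [map_add]
      exact S.add_mem h1 h3
    refine ⟨h5, ?_⟩
    have e1 : (⟨σ (x + y), h5⟩ : S) = ⟨σ x, h1⟩ + ⟨σ y, h3⟩ := Subtype.ext (map_add σ x y)
    have e2 : (⟨x + y, S.add_mem hx hy⟩ : S) = ⟨x, hx⟩ + ⟨y, hy⟩ := rfl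
    rw [e1, e2, map_add, map_add]
    push_cast
    rw [h2, h4, map_add]
  algebraMap_mem' := by
    intro a
    have h1 : algebraMap K L a = algebraMap Kb L (algebraMap K Kb a) := rfl
    have h2 : algebraMap K L a ∈ S := by
      rw [h1]
      exact S.algebraMap_mem _
    refine ⟨h2, fun σ => ?_⟩
    have h3 : σ (algebraMap K L a) = algebraMap K L a :=
      σ.commutes (algebraMap K Ω a)
    have h4 : σ (algebraMap K L a) ∈ S := by rwa [h3]
    refine ⟨h4, ?_⟩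
    have e1 : (⟨σ (algebraMap K L a), h4⟩ : S) = algebraMap Kb S (algebraMap K Kb a) :=
      Subtype.ext h3
    have e2 : (⟨algebraMap K L a, h2⟩ : S) = algebraMap Kb S (algebraMap K Kb a) := rfl
    rw [e1, e2, ψ.commutes]
    exact h3.symm

end

theorem pf_PNT (_hVAL : T_VAL) (hSGM : T_SGM) (hEVL : T_EVL) : T_PNT := by
  classical
  intro K L _ _ _ F Kb Ω X i₀ φ r t D T hB hSys hrep hHAR hinv
  obtain ⟨S, ψ, hψ⟩ := hEVL K L F Kb Ω X.n (X.base Kb) i₀ φ r t hB hSys.alg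
  have hle : T.Rb i₀ ≤ eqvS Ω S ψ := by
    unfold UniversalTorsor.Rb
    refine Algebra.adjoin_le ?_
    rintro x ⟨e, rfl, he⟩
    obtain ⟨f, n, hef, hdv⟩ := hrep e
    have hord : ∀ v : PrimeDivisor (X.base Kb), On φ v → 0 ≤ v.ord (f : Fb F Kb) := by
      intro v hv
      have h1 := he v hv.1
      rw [hdv v] at h1
      unfold dn at h1
      have h2 : (∑ j, if v = D j then n j else 0) = 0 := by
        refine Finset.sum_eq_zero fun j _ => ?_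
        rw [if_neg]
        intro h3
        rw [h3] at hv
        exact hSys.off j hv
      rw [h2, add_zero] at h1
      exact h1
    obtain ⟨c, hc⟩ := hHAR f f.ne_zero hord
    rw [hef]
    obtain ⟨h1, h2⟩ := hψ f n c hc
    refine ⟨h1, fun σ => ?_⟩
    obtain ⟨f', n', h3, -, h5⟩ := hSGM K L F Kb Ω X.n (X.base Kb) i₀ φ r t D hB hSys σ f n
    have h6 := h5 c ⟨σ c, hB.kb σ c⟩ rfl hc
    obtain ⟨h7, h8⟩ := hψ f' n' _ h6
    have h9 : σ ((mon t f n : Lˣ) : L) = ((mon t f' n' : Lˣ) : L) :=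
      congrArg (fun u : Lˣ => (u : L)) h3
    have h10 : σ ((mon t f n : Lˣ) : L) ∈ S := by
      rw [h9]
      exact h7
    refine ⟨h10, ?_⟩
    have e1 : (⟨σ ((mon t f n : Lˣ) : L), h10⟩ : S) = ⟨((mon t f' n' : Lˣ) : L), h7⟩ :=
      Subtype.ext h9
    rw [e1, h8, h2]
  have hR : ∀ x : T.R i₀, (x : L) ∈ S := fun x => (hle x.2.1).1
  have hK : ∀ x : T.R i₀, ((ψ ⟨x, hR x⟩ : Kb) : L) ∈ (⊥ : Subalgebra K L) := by
    intro x
    have h1 : ∀ σ : L ≃ₐ[Ω] L, σ ((ψ ⟨x, hR x⟩ : Kb) : L) = ((ψ ⟨x, hR x⟩ : Kb) : L) := by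
      intro σ
      obtain ⟨h2, h3⟩ := (hle x.2.1).2 σ
      have h4 : σ (x : L) = x := σ.commutes ⟨(x : L), x.2.2⟩
      have e1 : (⟨σ (x : L), h2⟩ : S) = ⟨x, hR x⟩ := Subtype.ext h4
      rw [e1] at h3
      exact h3.symm
    obtain ⟨a, ha⟩ := hinv _ h1
    rw [ha]
    exact (⊥ : Subalgebra K L).algebraMap_mem a
  let g : T.R i₀ →ₐ[K] L :=
    { toFun := fun x => ((ψ ⟨x, hR x⟩ : Kb) : L)
      map_one' := by
        have e1 : (⟨((1 : T.R i₀) : L), hR 1⟩ : S) = 1 := rfl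
        rw [e1, map_one]
        rfl
      map_mul' := fun x y => by
        have e1 : (⟨((x * y : T.R i₀) : L), hR (x * y)⟩ : S) = ⟨x, hR x⟩ * ⟨y, hR y⟩ := rfl
        rw [e1, map_mul]
        rfl
      map_zero' := by
        have e1 : (⟨((0 : T.R i₀) : L), hR 0⟩ : S) = 0 := rfl
        rw [e1, map_zero]
        rfl
      map_add' := fun x y => by
        have e1 : (⟨((x + y : T.R i₀) : L), hR (x + y)⟩ : S) = ⟨x, hR x⟩ + ⟨y, hR y⟩ := rfl
        rw [e1, map_add]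
        rfl
      commutes' := fun a => by
        have e1 : (⟨((algebraMap K (T.R i₀) a : T.R i₀) : L), hR (algebraMap K (T.R i₀) a)⟩ : S) =
            algebraMap Kb S (algebraMap K Kb a) := rfl
        rw [e1, ψ.commutes]
        rfl }
  exact ⟨i₀, ⟨((Algebra.botEquiv K L : (⊥ : Subalgebra K L) ≃ₐ[K] K) :
    (⊥ : Subalgebra K L) →ₐ[K] K).comp (g.codRestrict ⊥ hK)⟩⟩

end Pool.Agent.H14.UN
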