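import Pool.Agent.H17.UN.Tow

/-!
# The semi-invariant functions are algebraically independent and generate `L` (XAL)
-/

set_option autoImplicit false

open Polynomial
open Pool.Agent.H17.UN

namespace Pool.Agent.H14.UN

section

variable {K L : Type} [Field K] [Field L] [Algebra K L]

instance tower_Fb (F Kb : IntermediateField K L) : IsScalarTower K (Fb F Kb) L :=
  IsScalarTower.of_algebraMap_eq fun _ => rfl

/-- the compositum is algebraic over two coordinates -/
theorem alg_Fb {P Q : K[X]} {F Kb : IntermediateField K L} (halg : ∀ x ∈ Kb, IsAlgebraic K x)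
    {s y z : L} (hF : F = IntermediateField.adjoin K {s, y, z})
    (hy : y ^ 2 = aeval s P + aeval s Q * z ^ 2) (s' z' : Fb F Kb) (hs : (s' : L) = s)
    (hz : (z' : L) = z) :
    Algebra.IsAlgebraic (Algebra.adjoin K ({s', z'} : Set (Fb F Kb))) (Fb F Kb) := by
  set R := Algebra.adjoin K ({s', z'} : Set (Fb F Kb)) with hR
  have hsR : s' ∈ R := Algebra.subset_adjoin (by simp)
  have hzR : z' ∈ R := Algebra.subset_adjoin (by simp)
  have hmemR : ∀ x : Fb F Kb, x ∈ R → IsAlgebraic R x := fun x hx =>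
    isAlgebraic_algebraMap (⟨x, hx⟩ : R)
  have hinj : Function.Injective (algebraMap K R) := (algebraMap K R).injective
  have hFFb : ∀ x ∈ F, x ∈ Fb F Kb := fun x hx => IntermediateField.subset_adjoin _ _ hx
  have hFalg : ∀ (x : L) (hx : x ∈ F), IsAlgebraic R (⟨x, hFFb x hx⟩ : Fb F Kb) := by
    intro x hx
    have hx' := hx
    rw [hF] at hx'
    induction hx' using IntermediateField.adjoin_induction with
    | mem a ha =>
      rcases ha with rfl | rfl | rfl
      · have e : (⟨a, hFFb a hx⟩ : Fb F Kb) = s' := Subtype.ext hs.symm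
        rw [e]
        exact hmemR _ hsR
      · have e : (⟨a, hFFb a hx⟩ : Fb F Kb) ^ 2 =
            aeval s' P + aeval s' Q * z' ^ 2 := by
          apply Subtype.ext
          have e1 : ∀ f : K[X], ((aeval s' f : Fb F Kb) : L) = aeval s f := by
            intro f
            rw [← hs]
            exact (aeval_algebraMap_apply L s' f).symm
          push_cast
          rw [e1, e1, hz]
          exact hy
        refine IsAlgebraic.of_pow two_pos ?_
        rw [e]
        have e2 : ∀ f : K[X], aeval s' f ∈ R := fun f =>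
          Algebra.adjoin_mono (by simp) (aeval_mem_adjoin_singleton K s')
        exact hmemR _ (R.add_mem (e2 P) (R.mul_mem (e2 Q) (R.pow_mem hzR 2)))
      · have e : (⟨a, hFFb a hx⟩ : Fb F Kb) = z' := Subtype.ext hz.symm
        rw [e]
        exact hmemR _ hzR
    | algebraMap c =>
      have e : (⟨algebraMap K L c, hFFb _ hx⟩ : Fb F Kb) = algebraMap K (Fb F Kb) c :=
        Subtype.ext rfl
      rw [e]
      exact hmemR _ (R.algebraMap_mem c)
    | add a b ha hb iha ihb =>
      rw [← hF] at ha hb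
      exact (iha ha).add (ihb hb)
    | inv a ha iha =>
      rw [← hF] at ha
      exact (iha ha).inv
    | mul a b ha hb iha ihb =>
      rw [← hF] at ha hb
      exact (iha ha).mul (ihb hb)
  refine ⟨fun x => ?_⟩
  obtain ⟨x, hx⟩ := x
  induction hx using IntermediateField.adjoin_induction with
  | mem a ha => exact hFalg a ha
  | algebraMap c =>
    have h1 : IsAlgebraic K (c : L) := halg _ c.2
    have h2 : IsAlgebraic K (⟨algebraMap Kb L c, (Fb F Kb).algebraMap_mem c⟩ : Fb F Kb) :=
      (isAlgebraic_algebraMap_iff (algebraMap (Fb F Kb) L).injective).mp h1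
    exact h2.extendScalars hinj
  | add a b _ _ iha ihb => exact iha.add ihb
  | inv a _ iha => exact iha.inv
  | mul a b _ _ iha ihb => exact iha.mul ihb

/-- a generated field is algebraic over the generated algebra -/
theorem alg_of_gen {E L : Type} [Field E] [Field L] [Algebra E L] (S : Set L)
    (h : IntermediateField.adjoin E S = ⊤) : Algebra.IsAlgebraic (Algebra.adjoin E S) L := by
  refine ⟨fun x => ?_⟩
  have hx : x ∈ IntermediateField.adjoin E S := by
    rw [h]
    exact IntermediateField.mem_top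
  rw [IntermediateField.mem_adjoin_iff_div] at hx
  obtain ⟨a, ha, b, hb, rfl⟩ := hx
  have h1 : IsAlgebraic (Algebra.adjoin E S) a :=
    isAlgebraic_algebraMap (⟨a, ha⟩ : Algebra.adjoin E S)
  have h2 : IsAlgebraic (Algebra.adjoin E S) b :=
    isAlgebraic_algebraMap (⟨b, hb⟩ : Algebra.adjoin E S)
  rw [div_eq_mul_inv]
  exact h1.mul h2.inv

/-- the transcendence degree over the compositum -/
theorem trdeg_ge (F Kb : IntermediateField K L) (s' z' : Fb F Kb)
    (halg : Algebra.IsAlgebraic (Algebra.adjoin K ({s', z'} : Set (Fb F Kb))) (Fb F Kb))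
    {x : Fin 10 → L} (hx : AlgebraicIndependent K x) :
    (8 : Cardinal) ≤ Algebra.trdeg (Fb F Kb) L := by
  have h1 := hx.cardinalMk_le_trdeg
  have h2 : Algebra.trdeg K (Fb F Kb) ≤ 2 := by
    refine (Algebra.IsAlgebraic.trdeg_le_cardinalMk K ({s', z'} : Set (Fb F Kb))).trans ?_
    refine (Cardinal.mk_insert_le).trans ?_
    rw [Cardinal.mk_singleton]
    norm_num
  have h3 := _root_.trdeg_add_eq K (Fb F Kb) (A := L)
  by_contra hcon
  push Not at hcon
  obtain ⟨n, hn⟩ := Cardinal.lt_aleph0.mp (hcon.trans (Cardinal.natCast_lt_aleph0 (n := 8)))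
  rw [hn] at hcon h3
  have hn8 : n < 8 := by exact_mod_cast hcon
  rw [Cardinal.mk_fin, ← h3] at h1
  have h4 : ((10 : ℕ) : Cardinal) ≤ 2 + (n : Cardinal) :=
    h1.trans (add_le_add_left h2 _)
  have h5 : (10 : ℕ) ≤ 2 + n := by exact_mod_cast h4
  omega

end

theorem gen_XAL (hDRT : T_DRT) {K L : Type} [Field K] [CharZero K] [Field L] [Algebra K L]
    {P Q : K[X]} {e c : Fin 5 → K} {c' p0 : K} {F Kb Ω0 Ω : IntermediateField K L} {s y z v : L}
    {X Y : Fin 5 → L} {X' Y' w : L} (hD : Dat P Q e c c' p0)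
    (hT : Tow P Q e c c' F Kb Ω0 Ω s y z v X Y X' Y' w) (r : Fin 5 → Kb) (ρ : Kb)
    (hr : ∀ i, (r i : L) ^ 2 = algebraMap K L (c i)) (hρ : (ρ : L) ^ 2 = algebraMap K L c') :
    IntermediateField.adjoin (Fb F Kb)
      (Set.range (Fin.snoc (tt X Y X' Y' r ρ) w : Fin 8 → L)) = ⊤ := by
  have hch : CharZero L := charZero_of_injective_algebraMap (algebraMap K L).injective
  have h20 : (2 : L) ≠ 0 := two_ne_zero
  obtain ⟨hc0, hc'0, -, -⟩ := hDRT K P Q e c c' p0 hD
  have hr0 : ∀ i, (r i : L) ≠ 0 := by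
    intro i h
    have h1 := hr i
    rw [h, zero_pow two_ne_zero] at h1
    exact hc0 i ((map_eq_zero _).mp h1.symm)
  have hρ0 : (ρ : L) ≠ 0 := by
    intro h
    have h1 := hρ
    rw [h, zero_pow two_ne_zero] at h1
    exact hc'0 ((map_eq_zero _).mp h1.symm)
  set J := IntermediateField.adjoin (Fb F Kb)
      (Set.range (Fin.snoc (tt X Y X' Y' r ρ) w : Fin 8 → L)) with hJ
  have hFb : ∀ x ∈ Fb F Kb, x ∈ J := fun x hx => J.algebraMap_mem ⟨x, hx⟩
  have hKb : ∀ x ∈ Kb, x ∈ J := fun x hx => hFb x ((Fb F Kb).algebraMap_mem ⟨x, hx⟩)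
  have hF : ∀ x ∈ F, x ∈ J := fun x hx => hFb x (IntermediateField.subset_adjoin _ _ hx)
  have hK : ∀ x : K, algebraMap K L x ∈ J := fun x => hKb _ (Kb.algebraMap_mem x)
  have hsJ : s ∈ J := hF s (by
    rw [hT.hF]
    exact IntermediateField.subset_adjoin _ _ (by simp))
  have hyJ : y ∈ J := hF y (by
    rw [hT.hF]
    exact IntermediateField.subset_adjoin _ _ (by simp))
  have hzJ : z ∈ J := hF z (by
    rw [hT.hF]
    exact IntermediateField.subset_adjoin _ _ (by simp))
  have htt : ∀ j, tt X Y X' Y' r ρ j ∈ J := by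
    intro j
    refine IntermediateField.subset_adjoin _ _ ⟨Fin.castSucc j, ?_⟩
    rw [Fin.snoc_castSucc]
  have hwJ : w ∈ J := by
    refine IntermediateField.subset_adjoin _ _ ⟨Fin.last 7, ?_⟩
    rw [Fin.snoc_last]
  have h2J : (2 : L) ∈ J := by
    have := hK 2
    rwa [map_ofNat] at this
  have hp : X' + ρ * Y' ∈ J := htt 5
  have hm : X' - ρ * Y' ∈ J := htt 6
  have hvJ : v ∈ J := by
    have h1 : v = (X' + ρ * Y') * (X' - ρ * Y') := by
      rw [hT.inf, ← hρ]
      ring
    rw [h1]
    exact mul_mem hp hm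
  have hX'J : X' ∈ J := by
    have h1 : X' = ((X' + ρ * Y') + (X' - ρ * Y')) / 2 := by
      field_simp
      ring
    rw [h1]
    exact div_mem (add_mem hp hm) h2J
  have hY'J : Y' ∈ J := by
    have h1 : Y' = ((X' + ρ * Y') - (X' - ρ * Y')) / (2 * ρ) := by
      field_simp
      ring
    rw [h1]
    exact div_mem (sub_mem hp hm) (mul_mem h2J (hKb _ ρ.2))
  have hx : ∀ i : Fin 5, X i + r i * Y i ∈ J := by
    intro i
    have h1 : tt X Y X' Y' r ρ (Fin.castAdd 2 i) = X i + r i * Y i := by
      fin_cases i <;> rfl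
    rw [← h1]
    exact htt _
  have hstr : Transcendental K s := hT.ind.transcendental 0
  have hv0 : v ≠ 0 := hT.ind.ne_zero 2
  have he1 : ∀ i, algebraMap K L (1 - e i) ≠ 0 := by
    intro i h
    rw [map_eq_zero, sub_eq_zero] at h
    exact hD.one i h.symm
  have hse : ∀ i, s - algebraMap K L (e i) ≠ 0 := by
    intro i h
    rw [sub_eq_zero] at h
    rw [h] at hstr
    exact hstr (isAlgebraic_algebraMap _)
  have hprod : ∀ i, algebraMap K L (1 - e i) * ((X i + r i * Y i) * (X i - r i * Y i)) =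
      (s - algebraMap K L (e i)) * v := by
    intro i
    have h1 := hT.eqs i
    rw [← hr i] at h1
    linear_combination -h1
  have hx0 : ∀ i, X i + r i * Y i ≠ 0 := by
    intro i h
    have h1 := hprod i
    rw [h, zero_mul, mul_zero] at h1
    exact mul_ne_zero (hse i) hv0 h1.symm
  have hxb : ∀ i, X i - r i * Y i ∈ J := by
    intro i
    have h1 : X i - r i * Y i = ((s - algebraMap K L (e i)) * v) /
        (algebraMap K L (1 - e i) * (X i + r i * Y i)) := by
      rw [eq_div_iff (mul_ne_zero (he1 i) (hx0 i)), ← hprod i]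
      ring
    rw [h1]
    exact div_mem (mul_mem (sub_mem hsJ (hK _)) hvJ) (mul_mem (hK _) (hx i))
  have hXJ : ∀ i, X i ∈ J := by
    intro i
    have h1 : X i = ((X i + r i * Y i) + (X i - r i * Y i)) / 2 := by
      field_simp
      ring
    rw [h1]
    exact div_mem (add_mem (hx i) (hxb i)) h2J
  have hYJ : ∀ i, Y i ∈ J := by
    intro i
    have h1 : Y i = ((X i + r i * Y i) - (X i - r i * Y i)) / (2 * r i) := by
      have := hr0 i
      field_simp
      ring
    rw [h1]
    exact div_mem (sub_mem (hx i) (hxb i)) (mul_mem h2J (hKb _ (r i).2))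
  have hle : Ω ⊔ Kb ≤ J.restrictScalars K := by
    rw [hT.hΩ, hT.hΩ0]
    refine sup_le (sup_le ?_ ?_) (fun x hx => hKb x hx)
    · rw [IntermediateField.adjoin_le_iff]
      rintro x ((rfl | rfl | rfl | rfl | rfl | rfl) | ⟨i, rfl⟩ | ⟨i, rfl⟩)
      · exact hsJ
      · exact hyJ
      · exact hzJ
      · exact hvJ
      · exact hX'J
      · exact hY'J
      · exact hXJ i
      · exact hYJ i
    · rw [IntermediateField.adjoin_le_iff]
      rintro x rfl
      exact hwJ
  rw [eq_top_iff]
  intro x _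
  have h1 : x ∈ Ω ⊔ Kb := by
    rw [hT.sup]
    exact IntermediateField.mem_top
  exact hle h1

theorem pf_XAL (hDRT : T_DRT) : T_XAL := by
  intro K L _ _ _ _ P Q e c c' p0 F Kb Ω0 Ω s y z v X Y X' Y' w hD hT r ρ hr hρ
  have hgen := gen_XAL hDRT hD hT r ρ hr hρ
  refine ⟨?_, hgen⟩
  have hsF : s ∈ F := by
    rw [hT.hF]
    exact IntermediateField.subset_adjoin _ _ (by simp)
  have hzF : z ∈ F := by
    rw [hT.hF]
    exact IntermediateField.subset_adjoin _ _ (by simp)
  have halg := alg_Fb hT.alg hT.hF hT.con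
    (⟨s, IntermediateField.subset_adjoin _ _ hsF⟩ : Fb F Kb)
    (⟨z, IntermediateField.subset_adjoin _ _ hzF⟩ : Fb F Kb) rfl rfl
  have h8 := trdeg_ge F Kb _ _ halg hT.ind
  have := alg_of_gen _ hgen
  exact (Algebra.IsAlgebraic.isTranscendenceBasis_of_le_trdeg_of_finite (Fb F Kb)
    (Fin.snoc (tt X Y X' Y' r ρ) w : Fin 8 → L) (by
      rw [Cardinal.mk_fin]
      exact_mod_cast h8)).1

end Pool.Agent.H14.UN
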